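import Pool.Agent.helper36.NF.SpecB

/-!
# No formula for a divisor of a Fermat number (MP_37e5fa_nt): row FN2
-/

set_option autoImplicit false

open Polynomial Filter FirstOrder FirstOrder.Language

namespace Pool.Agent.NoFormula

theorem FN2_list (A : List (ℕ → ℤ)) (hA : ∀ f ∈ A, Kill f) :
    ∀ a d : ℕ, 0 < d → ∃ b e : ℕ, 0 < e ∧ (∀ j : ℕ, ∃ i : ℕ, b + e * j = a + d * i) ∧
      ∀ f ∈ A, ∀ j : ℕ, f (b + e * j) ∣ 2 ^ (2 ^ (b + e * j)) + 1 →
        |f (b + e * j)| = 1 ∨ |f (b + e * j)| = 2 ^ (2 ^ (b + e * j)) + 1 := by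
  induction A with
  | nil =>
    intro a d hd
    refine ⟨a, d, hd, fun j => ⟨j, rfl⟩, ?_⟩
    intro f hf
    exact absurd hf List.not_mem_nil
  | cons g A ih =>
    intro a d hd
    obtain ⟨b₀, e₀, he₀, h1, h2⟩ := hA g List.mem_cons_self a d hd
    obtain ⟨b, e, he, h3, h4⟩ := ih (fun f hf => hA f (List.mem_cons_of_mem g hf)) b₀ e₀ he₀
    refine ⟨b, e, he, ?_, ?_⟩
    · intro j
      obtain ⟨i, hi⟩ := h3 j
      obtain ⟨i', hi'⟩ := h1 i
      exact ⟨i', hi.trans hi'⟩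
    · intro f hf j
      rcases List.mem_cons.1 hf with hf | hf
      · obtain ⟨i, hi⟩ := h3 j
        rw [hf, hi]
        exact h2 i
      · exact h4 f hf j

/-- row FN2 -/
theorem FN2 (hLVA : LVA_stmt) (hFR2 : FR2_stmt) (hNDV : NDV_stmt) (hTAM : TAM_stmt) (hKIL : KIL_stmt) :
    FN2_stmt := by
  intro A hA
  apply FN2_list
  intro f hf
  rcases hA f hf with h | ⟨t, ht⟩
  · exact hKIL.1 f h
  · obtain ⟨k, hk⟩ := hFR2 t
    have hk2 : Lev k f := hLVA.2.2.2.2.2 k t.eval f hk (ht.mono fun m hm => hm.symm)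
    rcases hNDV k f hk2 with h | h
    · exact hKIL.1 f (hTAM f h)
    · exact hKIL.2 f h

end Pool.Agent.NoFormula
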